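import Mathlib
import Pool.Agent.Lib.MP_239067_co.Pole.Rule

/-!
Multipoles of the level 4 certificate, part 1 (generated).
-/

set_option autoImplicit false
set_option linter.all false
set_option maxRecDepth 20000

namespace Pool.Agent.Lib.MP_239067_co.Pole.K4

theorem n0 : Nd 4 0 (0, 0, 17) (0, 0, 4) 3 [(0, 0, 4), (0, 0, 4), (0, 0, 9)] 0x7 :=
  Nd.vertex (K := 4) le_rfl (by decide +kernel)

theorem n1 : Nd 4 0 (0, 0, 17) (0, 0, 4) 3 [(0, 0, 4), (0, 0, 5), (0, 0, 8)] 0x7 :=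
  Nd.vertex (K := 4) le_rfl (by decide +kernel)

theorem n2 : Nd 4 0 (0, 0, 17) (0, 0, 4) 3 [(0, 0, 4), (0, 0, 6), (0, 0, 7)] 0x7 :=
  Nd.vertex (K := 4) le_rfl (by decide +kernel)

theorem n3 : Nd 4 0 (0, 0, 17) (0, 0, 4) 3 [(0, 0, 5), (0, 0, 5), (0, 0, 7)] 0x7 :=
  Nd.vertex (K := 4) le_rfl (by decide +kernel)

theorem n4 : Nd 4 0 (0, 0, 17) (0, 0, 4) 3 [(0, 0, 5), (0, 0, 6), (0, 0, 6)] 0x7 :=
  Nd.vertex (K := 4) le_rfl (by decide +kernel)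

theorem n5 : Nd 4 0 (0, 0, 17) (0, 0, 4) 4 [(0, 0, 4), (0, 0, 7), (0, 0, 10), (0, 0, 13)] 0xf0f030 :=
  n2.join n2 [(1, 1)] [(0, 0), (2, 1)] [(0, 3), (2, 2)] 1 (-1) (by decide +kernel)

theorem n6 : Nd 4 0 (0, 0, 17) (0, 0, 4) 4 [(0, 0, 5), (0, 0, 7), (0, 0, 11), (0, 0, 11)] 0xf0f030 :=
  n3.join n4 [(0, 0)] [(1, 0), (2, 1)] [(1, 2), (2, 3)] 1 (-1) (by decide +kernel)

theorem n7 : Nd 4 0 (0, 0, 17) (0, 0, 4) 4 [(0, 0, 5), (0, 0, 7), (0, 0, 10), (0, 0, 12)] 0xf0f030 :=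
  n3.join n3 [(1, 0)] [(0, 0), (2, 1)] [(1, 3), (2, 2)] 1 (-1) (by decide +kernel)

theorem n8 : Nd 4 0 (0, 0, 17) (0, 0, 4) 4 [(0, 0, 4), (0, 0, 4), (0, 0, 13), (0, 0, 13)] 0xf0f030 :=
  n0.join n0 [(2, 2)] [(0, 0), (1, 1)] [(0, 2), (1, 3)] 1 (-1) (by decide +kernel)

theorem n9 : Nd 4 0 (0, 0, 17) (0, 0, 4) 4 [(0, 0, 4), (0, 0, 8), (0, 0, 9), (0, 0, 13)] 0x422288aa :=
  n0.join n0 [(1, 1)] [(0, 0), (2, 2)] [(0, 3), (2, 1)] 1 (-1) (by decide +kernel)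

theorem n10 : Nd 4 0 (0, 0, 17) (0, 0, 4) 4 [(0, 0, 4), (0, 0, 7), (0, 0, 11), (0, 0, 12)] 0xf0f030 :=
  n2.join n4 [(1, 1)] [(0, 0), (2, 1)] [(0, 3), (2, 2)] 1 (-1) (by decide +kernel)

theorem n11 : Nd 4 0 (0, 0, 17) (0, 0, 4) 4 [(0, 0, 4), (0, 0, 8), (0, 0, 10), (0, 0, 12)] 0xf0f030 :=
  n1.join n3 [(1, 0)] [(0, 0), (2, 1)] [(1, 3), (2, 2)] 1 (-1) (by decide +kernel)

theorem n12 : Nd 4 0 (0, 0, 17) (0, 0, 4) 4 [(0, 0, 4), (0, 0, 4), (0, 0, 4), (0, 0, 5)] 0xf0f030 :=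
  n0.join n1 [(2, 2)] [(0, 0), (1, 1)] [(0, 2), (1, 3)] 1 1 (by decide +kernel)

theorem n13 : Nd 4 0 (0, 0, 17) (0, 0, 4) 4 [(0, 0, 5), (0, 0, 8), (0, 0, 10), (0, 0, 11)] 0xf0f030 :=
  n1.join n2 [(0, 0)] [(1, 0), (2, 1)] [(1, 3), (2, 2)] 1 (-1) (by decide +kernel)

theorem n14 : Nd 4 0 (0, 0, 17) (0, 0, 4) 4 [(0, 0, 4), (0, 0, 9), (0, 0, 10), (0, 0, 11)] 0xf0f030 :=
  n0.join n2 [(1, 0)] [(0, 0), (2, 1)] [(1, 3), (2, 2)] 1 (-1) (by decide +kernel)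

theorem n15 : Nd 4 0 (0, 0, 17) (0, 0, 4) 4 [(0, 0, 4), (0, 0, 9), (0, 0, 9), (0, 0, 12)] 0xf0f030 :=
  n0.join n1 [(0, 0)] [(1, 0), (2, 1)] [(1, 3), (2, 2)] 1 (-1) (by decide +kernel)

theorem n16 : Nd 4 0 (0, 0, 17) (0, 0, 4) 4 [(0, 0, 4), (0, 0, 8), (0, 0, 11), (0, 0, 11)] 0xf0f030 :=
  n1.join n4 [(1, 0)] [(0, 0), (2, 1)] [(1, 2), (2, 3)] 1 (-1) (by decide +kernel)

theorem n17 : Nd 4 0 (0, 0, 17) (0, 0, 4) 4 [(0, 0, 4), (0, 0, 8), (0, 0, 9), (0, 0, 13)] 0xf0f030 :=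
  n1.join n1 [(1, 1)] [(0, 0), (2, 1)] [(0, 3), (2, 2)] 1 (-1) (by decide +kernel)

theorem n18 : Nd 4 0 (0, 0, 17) (0, 0, 4) 4 [(0, 0, 4), (0, 0, 6), (0, 0, 12), (0, 0, 12)] 0xf0f030 :=
  n2.join n3 [(2, 2)] [(0, 0), (1, 1)] [(0, 2), (1, 3)] 1 (-1) (by decide +kernel)

theorem n19 : Nd 4 0 (0, 0, 17) (0, 0, 4) 4 [(0, 0, 4), (0, 0, 5), (0, 0, 12), (0, 0, 13)] 0xf0f030 :=
  n1.join n1 [(2, 2)] [(0, 0), (1, 1)] [(0, 3), (1, 2)] 1 (-1) (by decide +kernel)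

theorem n20 : Nd 4 0 (0, 0, 17) (0, 0, 4) 4 [(0, 0, 4), (0, 0, 6), (0, 0, 11), (0, 0, 13)] 0xf0f030 :=
  n2.join n2 [(2, 2)] [(0, 0), (1, 1)] [(0, 3), (1, 2)] 1 (-1) (by decide +kernel)

theorem n21 : Nd 4 0 (0, 0, 17) (0, 0, 4) 4 [(0, 0, 5), (0, 0, 8), (0, 0, 9), (0, 0, 12)] 0xf0f030 :=
  n1.join n1 [(0, 0)] [(1, 0), (2, 1)] [(1, 3), (2, 2)] 1 (-1) (by decide +kernel)

theorem n22 : Nd 4 0 (0, 0, 17) (0, 0, 4) 4 [(0, 0, 6), (0, 0, 9), (0, 0, 9), (0, 0, 10)] 0x1184f5f531 :=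
  n14.join n16 [(0, 0), (3, 2)] [(1, 1), (2, 3)] [(1, 2), (3, 0)] 1 (-1) (by decide +kernel)

theorem n23 : Nd 4 0 (0, 0, 17) (0, 0, 4) 5 [(0, 0, 4), (0, 0, 4), (0, 0, 5), (0, 0, 9), (0, 0, 12)] 0xffc01860000000003c3f00198000000000000001fe000 :=
  n21.join n0 [(1, 2)] [(0, 2), (2, 3), (3, 4)] [(0, 0), (1, 1)] 1 1 (by decide +kernel)

theorem n24 : Nd 4 0 (0, 0, 17) (0, 0, 4) 5 [(0, 0, 4), (0, 0, 4), (0, 0, 4), (0, 0, 11), (0, 0, 11)] 0x43108dd64000000000c8445755000000000184103110000 :=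
  n16.join n0 [(1, 2)] [(0, 0), (2, 3), (3, 4)] [(0, 1), (1, 2)] 1 1 (by decide +kernel)

theorem n25 : Nd 4 0 (0, 0, 17) (0, 0, 4) 5 [(0, 0, 4), (0, 0, 4), (0, 0, 4), (0, 0, 10), (0, 0, 12)] 0xffc01860000000003c3f00198000000000000001fe000 :=
  n12.join n3 [(3, 1)] [(0, 0), (1, 1), (2, 2)] [(0, 4), (2, 3)] 1 (-1) (by decide +kernel)

theorem n26 : Nd 4 0 (0, 0, 17) (0, 0, 4) 4 [(0, 0, 6), (0, 0, 8), (0, 0, 10), (0, 0, 10)] 0x1184f5f531 :=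
  n13.join n6 [(0, 0), (3, 2)] [(1, 1), (2, 2)] [(1, 3), (3, 0)] 1 (-1) (by decide +kernel)

theorem n27 : Nd 4 0 (0, 0, 17) (0, 0, 4) 5 [(0, 0, 4), (0, 0, 4), (0, 0, 5), (0, 0, 9), (0, 0, 12)] 0x43108dd64000000000c8445755000000000184103110000 :=
  n12.join n1 [(0, 0)] [(1, 0), (2, 1), (3, 2)] [(1, 4), (2, 3)] 1 (-1) (by decide +kernel)

theorem n28 : Nd 4 0 (0, 0, 17) (0, 0, 4) 5 [(0, 0, 4), (0, 0, 5), (0, 0, 7), (0, 0, 7), (0, 0, 11)] 0x100020022004100151001008402000844214000000201000000204080101214257 :=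
  n6.join n2 [(3, 1)] [(0, 1), (1, 2), (2, 4)] [(0, 0), (2, 3)] 1 1 (by decide +kernel)

theorem n29 : Nd 4 0 (0, 0, 17) (0, 0, 4) 4 [(0, 0, 4), (0, 0, 5), (0, 0, 12), (0, 0, 13)] 0x2af4c135f :=
  n12.join n12 [(0, 2), (2, 1)] [(1, 0), (3, 1)] [(0, 3), (3, 2)] 1 (-1) (by decide +kernel)

end Pool.Agent.Lib.MP_239067_co.Pole.K4
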