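import Mathlib
import Pool.Agent.Lib.MP_239067_co.Pole.K4.D1

/-!
Multipoles of the level 4 certificate, part 2 (generated).
-/

set_option autoImplicit false
set_option linter.all false
set_option maxRecDepth 20000

namespace Pool.Agent.Lib.MP_239067_co.Pole.K4

theorem n30 : Nd 4 0 (0, 0, 17) (0, 0, 4) 5 [(0, 0, 4), (0, 0, 4), (0, 0, 6), (0, 0, 8), (0, 0, 12)] 0x20002001040082024880801040081020882400000020080000040408008120a46b :=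
  n18.join n1 [(3, 1)] [(0, 0), (1, 2), (2, 4)] [(0, 1), (2, 3)] 1 1 (by decide +kernel)

theorem n31 : Nd 4 0 (0, 0, 17) (0, 0, 4) 4 [(0, 0, 4), (0, 0, 4), (0, 0, 13), (0, 0, 13)] 0x2af4c135f :=
  n9.join n17 [(1, 2), (2, 1)] [(0, 0), (3, 2)] [(0, 1), (3, 3)] 1 1 (by decide +kernel)

theorem n32 : Nd 4 0 (0, 0, 17) (0, 0, 4) 4 [(0, 0, 4), (0, 0, 6), (0, 0, 12), (0, 0, 12)] 0xaaf4c135f :=
  n18.join n29 [(3, 1), (0, 3)] [(1, 1), (2, 3)] [(0, 0), (2, 2)] 1 1 (by decide +kernel)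

theorem n33 : Nd 4 0 (0, 0, 17) (0, 0, 4) 4 [(0, 0, 4), (0, 0, 8), (0, 0, 10), (0, 0, 12)] 0x254f238caf :=
  n13.join n32 [(0, 3), (3, 1)] [(1, 1), (2, 2)] [(0, 0), (2, 3)] 1 1 (by decide +kernel)

theorem n34 : Nd 4 0 (0, 0, 17) (0, 0, 4) 4 [(0, 0, 4), (0, 0, 7), (0, 0, 10), (0, 0, 13)] 0x254f238caf :=
  n5.join n31 [(0, 1), (3, 3)] [(1, 2), (2, 1)] [(0, 0), (2, 3)] (-1) 1 (by decide +kernel)

theorem n35 : Nd 4 0 (0, 0, 17) (0, 0, 4) 4 [(0, 0, 4), (0, 0, 7), (0, 0, 11), (0, 0, 12)] 0x254f238caf :=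
  n10.join n29 [(0, 0), (3, 2)] [(1, 1), (2, 2)] [(1, 3), (3, 0)] 1 (-1) (by decide +kernel)

theorem n36 : Nd 4 0 (0, 0, 17) (0, 0, 4) 4 [(0, 0, 5), (0, 0, 7), (0, 0, 11), (0, 0, 11)] 0xaaf4c135f :=
  n18.join n35 [(0, 0), (2, 3)] [(1, 2), (3, 0)] [(1, 1), (2, 3)] (-1) 1 (by decide +kernel)

theorem n37 : Nd 4 0 (0, 0, 17) (0, 0, 4) 4 [(0, 0, 6), (0, 0, 7), (0, 0, 10), (0, 0, 11)] 0xaaf4c135f :=
  n6.join n36 [(0, 0), (3, 2)] [(1, 2), (2, 0)] [(1, 1), (3, 3)] (-1) 1 (by decide +kernel)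

theorem n38 : Nd 4 0 (0, 0, 17) (0, 0, 4) 5 [(0, 0, 4), (0, 0, 4), (0, 0, 5), (0, 0, 10), (0, 0, 11)] 0x43108dd64000000000c8445755000000000184103110000 :=
  n12.join n2 [(0, 0)] [(1, 0), (2, 1), (3, 2)] [(1, 4), (2, 3)] 1 (-1) (by decide +kernel)

theorem n39 : Nd 4 0 (0, 0, 17) (0, 0, 4) 4 [(0, 0, 5), (0, 0, 8), (0, 0, 9), (0, 0, 12)] 0x54f238caf :=
  n15.join n15 [(0, 0), (2, 2)] [(1, 2), (3, 3)] [(1, 1), (3, 0)] 1 (-1) (by decide +kernel)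

theorem n40 : Nd 4 0 (0, 0, 17) (0, 0, 4) 4 [(0, 0, 5), (0, 0, 6), (0, 0, 11), (0, 0, 12)] 0xaaf4c135f :=
  n18.join n32 [(0, 0), (2, 2)] [(1, 1), (3, 3)] [(1, 2), (3, 0)] 1 (-1) (by decide +kernel)

theorem n41 : Nd 4 0 (0, 0, 17) (0, 0, 4) 4 [(0, 0, 5), (0, 0, 8), (0, 0, 10), (0, 0, 11)] 0x254f238caf :=
  n13.join n40 [(0, 3), (3, 1)] [(1, 1), (2, 2)] [(0, 0), (2, 3)] 1 1 (by decide +kernel)

theorem n42 : Nd 4 0 (0, 0, 17) (0, 0, 4) 5 [(0, 0, 4), (0, 0, 4), (0, 0, 5), (0, 0, 8), (0, 0, 13)] 0xffc01860000000003c3f00198000000000000001fe000 :=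
  n15.join n0 [(2, 2)] [(0, 4), (1, 3), (3, 2)] [(0, 0), (1, 1)] (-1) 1 (by decide +kernel)

theorem n43 : Nd 4 0 (0, 0, 17) (0, 0, 4) 4 [(0, 0, 7), (0, 0, 8), (0, 0, 9), (0, 0, 10)] 0xaaf4c135f :=
  n13.join n41 [(0, 0), (3, 3)] [(1, 1), (2, 3)] [(1, 2), (2, 0)] 1 (-1) (by decide +kernel)

theorem n44 : Nd 4 0 (0, 0, 17) (0, 0, 4) 4 [(0, 0, 5), (0, 0, 8), (0, 0, 10), (0, 0, 11)] 0xabf4c135f :=
  n41.join n37 [(2, 2), (3, 3)] [(0, 0), (1, 1)] [(0, 3), (1, 2)] 1 (-1) (by decide +kernel)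

theorem n45 : Nd 4 0 (0, 0, 17) (0, 0, 4) 5 [(0, 0, 6), (0, 0, 6), (0, 0, 7), (0, 0, 7), (0, 0, 8)] 0x20002001040082024880801040081020882400000020080000040408008120a46b :=
  n14.join n2 [(0, 0)] [(1, 4), (2, 2), (3, 0)] [(1, 1), (2, 3)] (-1) 1 (by decide +kernel)

theorem n46 : Nd 4 0 (0, 0, 17) (0, 0, 4) 4 [(0, 0, 4), (0, 0, 6), (0, 0, 11), (0, 0, 13)] 0xabf4c135f :=
  n29.join n40 [(1, 0), (2, 3)] [(0, 0), (3, 3)] [(1, 2), (2, 1)] 1 (-1) (by decide +kernel)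

theorem n47 : Nd 4 0 (0, 0, 17) (0, 0, 4) 4 [(0, 0, 7), (0, 0, 7), (0, 0, 10), (0, 0, 10)] 0xaaf4c135f :=
  n5.join n34 [(0, 0), (3, 3)] [(1, 0), (2, 2)] [(1, 3), (2, 1)] 1 (-1) (by decide +kernel)

theorem n48 : Nd 4 0 (0, 0, 17) (0, 0, 4) 4 [(0, 0, 5), (0, 0, 8), (0, 0, 10), (0, 0, 11)] 0x2bf4c135f :=
  n39.join n44 [(2, 1), (3, 0)] [(0, 0), (1, 1)] [(2, 2), (3, 3)] 1 1 (by decide +kernel)

theorem n49 : Nd 4 0 (0, 0, 17) (0, 0, 4) 5 [(0, 0, 4), (0, 0, 4), (0, 0, 5), (0, 0, 9), (0, 0, 12)] 0x20002001040082024880801040081020882400000020080000040408008120a46b :=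
  n19.join n0 [(3, 0)] [(0, 0), (1, 2), (2, 4)] [(1, 1), (2, 3)] 1 1 (by decide +kernel)

theorem n50 : Nd 4 0 (0, 0, 17) (0, 0, 4) 4 [(0, 0, 5), (0, 0, 9), (0, 0, 10), (0, 0, 10)] 0x1184f5f531 :=
  n14.join n10 [(0, 0), (3, 2)] [(1, 1), (2, 2)] [(1, 3), (3, 0)] 1 (-1) (by decide +kernel)

theorem n51 : Nd 4 0 (0, 0, 17) (0, 0, 4) 4 [(0, 0, 4), (0, 0, 9), (0, 0, 10), (0, 0, 11)] 0x254f238caf :=
  n14.join n46 [(0, 0), (3, 2)] [(1, 1), (2, 2)] [(1, 3), (3, 0)] 1 (-1) (by decide +kernel)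

theorem n52 : Nd 4 0 (0, 0, 17) (0, 0, 4) 4 [(0, 0, 4), (0, 0, 8), (0, 0, 10), (0, 0, 12)] 0x55f238caf :=
  n9.join n33 [(2, 1), (3, 0)] [(0, 0), (1, 1)] [(2, 2), (3, 3)] 1 1 (by decide +kernel)

theorem n53 : Nd 4 0 (0, 0, 17) (0, 0, 4) 4 [(0, 0, 4), (0, 0, 7), (0, 0, 11), (0, 0, 12)] 0xabf4c135f :=
  n35.join n40 [(2, 2), (3, 3)] [(0, 0), (1, 1)] [(0, 3), (1, 2)] 1 (-1) (by decide +kernel)

theorem n54 : Nd 4 0 (0, 0, 17) (0, 0, 4) 4 [(0, 0, 4), (0, 0, 9), (0, 0, 9), (0, 0, 12)] 0x2bf4c135f :=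
  n51.join n48 [(2, 2), (3, 3)] [(0, 0), (1, 1)] [(0, 3), (1, 2)] 1 (-1) (by decide +kernel)

theorem n55 : Nd 4 0 (0, 0, 17) (0, 0, 4) 4 [(0, 0, 5), (0, 0, 7), (0, 0, 10), (0, 0, 12)] 0xaaf4c135f :=
  n10.join n53 [(0, 0), (2, 2)] [(1, 1), (3, 3)] [(1, 2), (3, 0)] 1 (-1) (by decide +kernel)

theorem n56 : Nd 4 0 (0, 0, 17) (0, 0, 4) 4 [(0, 0, 4), (0, 0, 9), (0, 0, 10), (0, 0, 11)] 0x2bf4c135f :=
  n15.join n48 [(1, 1), (3, 0)] [(0, 0), (2, 1)] [(2, 2), (3, 3)] 1 1 (by decide +kernel)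

theorem n57 : Nd 4 0 (0, 0, 17) (0, 0, 4) 4 [(0, 0, 4), (0, 0, 8), (0, 0, 10), (0, 0, 12)] 0x2bf4c135f :=
  n52.join n55 [(2, 2), (3, 3)] [(0, 0), (1, 1)] [(0, 3), (1, 2)] 1 (-1) (by decide +kernel)

theorem n58 : Nd 4 0 (0, 0, 17) (0, 0, 4) 5 [(0, 0, 5), (0, 0, 6), (0, 0, 7), (0, 0, 8), (0, 0, 8)] 0x4000040804100200151000000110000000081088004100002110850104002540257 :=
  n15.join n2 [(0, 0)] [(1, 3), (2, 4), (3, 0)] [(1, 1), (2, 2)] (-1) 1 (by decide +kernel)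

theorem n59 : Nd 4 0 (0, 0, 17) (0, 0, 4) 5 [(0, 0, 5), (0, 0, 6), (0, 0, 7), (0, 0, 8), (0, 0, 8)] 0x880000000000c082000010230210308304000080c1308cc8ac10001a23322688c22a04 :=
  n56.join n1 [(0, 0)] [(1, 3), (2, 2), (3, 1)] [(1, 0), (2, 4)] (-1) 1 (by decide +kernel)

end Pool.Agent.Lib.MP_239067_co.Pole.K4
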