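import Mathlib
import Pool.Agent.Lib.MP_239067_co.Pole.K4.D2

/-!
Multipoles of the level 4 certificate, part 3 (generated).
-/

set_option autoImplicit false
set_option linter.all false
set_option maxRecDepth 20000

namespace Pool.Agent.Lib.MP_239067_co.Pole.K4

theorem n60 : Nd 4 0 (0, 0, 17) (0, 0, 4) 4 [(0, 0, 5), (0, 0, 9), (0, 0, 10), (0, 0, 10)] 0x254f238caf :=
  n50.join n43 [(2, 0), (1, 1)] [(0, 0), (3, 3)] [(2, 1), (3, 2)] 1 1 (by decide +kernel)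

theorem n61 : Nd 4 0 (0, 0, 17) (0, 0, 4) 4 [(0, 0, 4), (0, 0, 10), (0, 0, 10), (0, 0, 10)] 0x55f238caf :=
  n11.join n60 [(1, 1), (3, 0)] [(0, 0), (2, 1)] [(2, 2), (3, 3)] 1 1 (by decide +kernel)

theorem n62 : Nd 4 0 (0, 0, 17) (0, 0, 4) 4 [(0, 0, 5), (0, 0, 9), (0, 0, 9), (0, 0, 11)] 0xaaf4c135f :=
  n14.join n57 [(0, 0), (2, 2)] [(1, 1), (3, 3)] [(1, 2), (3, 0)] 1 (-1) (by decide +kernel)

theorem n63 : Nd 4 0 (0, 0, 17) (0, 0, 4) 5 [(0, 0, 4), (0, 0, 5), (0, 0, 6), (0, 0, 9), (0, 0, 10)] 0xc0000000000c30000000040000ffc01860001e00103c3f00198000780040000001fe003 :=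
  n22.join n1 [(1, 2)] [(0, 2), (2, 3), (3, 4)] [(0, 0), (1, 1)] 1 1 (by decide +kernel)

theorem n64 : Nd 4 0 (0, 0, 17) (0, 0, 4) 5 [(0, 0, 4), (0, 0, 4), (0, 0, 5), (0, 0, 9), (0, 0, 12)] 0x2208004142020c410608041001257c11060c920080088454517802080a4810418255e214 :=
  n23.join n17 [(0, 3), (3, 1)] [(1, 0), (2, 2), (4, 4)] [(0, 1), (2, 3)] 1 1 (by decide +kernel)

theorem n65 : Nd 4 0 (0, 0, 17) (0, 0, 4) 5 [(0, 0, 4), (0, 0, 5), (0, 0, 5), (0, 0, 9), (0, 0, 11)] 0x2208004142020c410608041001257c11060c920080088454517802080a4810418255e214 :=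
  n30.join n12 [(0, 2), (1, 0)] [(2, 4), (3, 3), (4, 1)] [(1, 0), (3, 2)] (-1) 1 (by decide +kernel)

theorem n66 : Nd 4 0 (0, 0, 17) (0, 0, 4) 5 [(0, 0, 4), (0, 0, 5), (0, 0, 7), (0, 0, 8), (0, 0, 10)] 0xc80000000b756a00000000c0003088dae4000640076102056ad000c2001c1821036b4043 :=
  n58.join n14 [(1, 3), (4, 1)] [(0, 1), (2, 2), (3, 3)] [(0, 0), (2, 4)] 1 1 (by decide +kernel)

theorem n67 : Nd 4 0 (0, 0, 17) (0, 0, 4) 5 [(0, 0, 4), (0, 0, 5), (0, 0, 7), (0, 0, 8), (0, 0, 10)] 0x1300000000001c41000008047109fd64620019001c8c4ff55188006403fd5907111420 :=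
  n59.join n14 [(1, 3), (4, 1)] [(0, 1), (2, 2), (3, 3)] [(0, 0), (2, 4)] 1 1 (by decide +kernel)

theorem n68 : Nd 4 0 (0, 0, 17) (0, 0, 4) 5 [(0, 0, 5), (0, 0, 5), (0, 0, 5), (0, 0, 9), (0, 0, 10)] 0xc1200200020c20461040248809fe84ff41325c96527d7413dd04c9725940861033fc46b :=
  n65.join n10 [(0, 0), (4, 2)] [(1, 0), (2, 1), (3, 3)] [(1, 4), (3, 2)] 1 (-1) (by decide +kernel)

theorem n69 : Nd 4 0 (0, 0, 17) (0, 0, 4) 5 [(0, 0, 4), (0, 0, 4), (0, 0, 4), (0, 0, 10), (0, 0, 12)] 0xc80000000b756a00000000c0003088dae4000640076102056ad000c2001c1821036b4043 :=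
  n25.join n19 [(0, 3), (4, 1)] [(1, 0), (2, 1), (3, 3)] [(0, 2), (2, 4)] 1 1 (by decide +kernel)

theorem n70 : Nd 4 0 (0, 0, 17) (0, 0, 4) 5 [(0, 0, 4), (0, 0, 4), (0, 0, 7), (0, 0, 8), (0, 0, 11)] 0xc48040000404340861001511522fc92be0ca4e29d4943f44ef832938a741021826fe257 :=
  n66.join n10 [(1, 3), (4, 1)] [(0, 0), (2, 2), (3, 3)] [(0, 1), (2, 4)] 1 1 (by decide +kernel)

theorem n71 : Nd 4 0 (0, 0, 17) (0, 0, 4) 5 [(0, 0, 4), (0, 0, 5), (0, 0, 5), (0, 0, 10), (0, 0, 10)] 0x3200000000001c410000080c710bfd64620019001c844df55188006403fd5907111420 :=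
  n67.join n60 [(2, 3), (3, 1)] [(0, 0), (1, 1), (4, 3)] [(0, 2), (2, 4)] 1 1 (by decide +kernel)

theorem n72 : Nd 4 0 (0, 0, 17) (0, 0, 4) 5 [(0, 0, 4), (0, 0, 4), (0, 0, 5), (0, 0, 10), (0, 0, 11)] 0x2208004142020c410608041001257c11060c920080088454517802080a4810418255e214 :=
  n38.join n20 [(1, 0), (4, 2)] [(0, 0), (2, 2), (3, 3)] [(1, 4), (3, 1)] 1 (-1) (by decide +kernel)

theorem n73 : Nd 4 0 (0, 0, 17) (0, 0, 4) 5 [(0, 0, 4), (0, 0, 4), (0, 0, 5), (0, 0, 8), (0, 0, 13)] 0x430004083495fe4026b81257c11075a49c101088454517908217555145dd655f57b :=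
  n64.join n15 [(3, 1), (4, 3)] [(0, 0), (1, 1), (2, 2)] [(0, 4), (2, 3)] 1 (-1) (by decide +kernel)

theorem n74 : Nd 4 0 (0, 0, 17) (0, 0, 4) 5 [(0, 0, 4), (0, 0, 5), (0, 0, 8), (0, 0, 8), (0, 0, 9)] 0xc80015b5401420032ac88000016a8000001907a10000a08041420406aaa005aa15eb :=
  n42.join n17 [(0, 0), (4, 3)] [(1, 0), (2, 1), (3, 2)] [(1, 4), (2, 3)] 1 (-1) (by decide +kernel)

theorem n75 : Nd 4 0 (0, 0, 17) (0, 0, 4) 5 [(0, 0, 4), (0, 0, 5), (0, 0, 5), (0, 0, 7), (0, 0, 13)] 0xd0000000000e40ec00034039034485bbd8016b8000003202800001a00c80681e0ea1c :=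
  n11.join n73 [(0, 0), (1, 3)] [(2, 3), (3, 2)] [(1, 0), (2, 1), (4, 4)] (-1) 1 (by decide +kernel)

theorem n76 : Nd 4 0 (0, 0, 17) (0, 0, 4) 5 [(0, 0, 4), (0, 0, 4), (0, 0, 8), (0, 0, 8), (0, 0, 10)] 0x4500c0000804190ba92037dd20211228b14208fad91419080887f23860623a49caebf7f :=
  n69.join n15 [(1, 0), (4, 3)] [(0, 0), (2, 1), (3, 4)] [(1, 2), (2, 3)] 1 (-1) (by decide +kernel)

theorem n77 : Nd 4 0 (0, 0, 17) (0, 0, 4) 5 [(0, 0, 4), (0, 0, 4), (0, 0, 8), (0, 0, 8), (0, 0, 10)] 0x501002000a083000182024086847c002e516de0650008500018002100040015d0a5e14b :=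
  n17.join n76 [(3, 1), (2, 2)] [(0, 1), (1, 3)] [(0, 0), (3, 2), (4, 4)] 1 1 (by decide +kernel)

theorem n78 : Nd 4 0 (0, 0, 17) (0, 0, 4) 5 [(0, 0, 4), (0, 0, 4), (0, 0, 7), (0, 0, 8), (0, 0, 11)] 0x501002000a083000182024086847c002e516de0650008500018002100040015d0a5e14b :=
  n17.join n70 [(3, 1), (2, 3)] [(0, 1), (1, 3)] [(0, 0), (2, 2), (4, 4)] 1 1 (by decide +kernel)

theorem n79 : Nd 4 0 (0, 0, 17) (0, 0, 4) 5 [(0, 0, 4), (0, 0, 4), (0, 0, 4), (0, 0, 10), (0, 0, 12)] 0x25811c80e15370e1461832a889c98694e2c731e396624026020104c480400a8f1a12154e8 :=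
  n75.join n12 [(0, 0), (2, 3)] [(1, 4), (3, 3), (4, 0)] [(1, 1), (2, 2)] (-1) 1 (by decide +kernel)

theorem n80 : Nd 4 0 (0, 0, 17) (0, 0, 4) 5 [(0, 0, 4), (0, 0, 4), (0, 0, 7), (0, 0, 8), (0, 0, 11)] 0xcb0800d02ff57f00062815c13078bc007f88ffe007001280007800c2001c001f8709e1d3 :=
  n78.join n9 [(0, 0), (3, 1)] [(1, 0), (2, 2), (4, 4)] [(2, 3), (3, 1)] 1 (-1) (by decide +kernel)

theorem n81 : Nd 4 0 (0, 0, 17) (0, 0, 4) 5 [(0, 0, 4), (0, 0, 5), (0, 0, 5), (0, 0, 8), (0, 0, 12)] 0x903002000a043142186020802dabd6afe136c1900a1328beaf841806406aabf85abf428 :=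
  n74.join n21 [(2, 1), (4, 2)] [(0, 0), (1, 1), (3, 3)] [(0, 4), (3, 2)] 1 (-1) (by decide +kernel)

theorem n82 : Nd 4 0 (0, 0, 17) (0, 0, 4) 5 [(0, 0, 4), (0, 0, 5), (0, 0, 7), (0, 0, 9), (0, 0, 9)] 0x330410006082611476437fc00000000022844bd500000000008a112f5400000064467f :=
  n75.join n54 [(1, 3), (4, 0)] [(0, 0), (2, 1), (3, 2)] [(1, 3), (2, 4)] 1 1 (by decide +kernel)

theorem n83 : Nd 4 0 (0, 0, 17) (0, 0, 4) 5 [(0, 0, 4), (0, 0, 4), (0, 0, 5), (0, 0, 10), (0, 0, 11)] 0x5a00000000006cbd00003c15b2e8dab4bf800bb06d57456cd2fe002ec01861836b463c :=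
  n72.join n20 [(0, 0), (4, 2)] [(1, 0), (2, 2), (3, 3)] [(1, 4), (3, 1)] 1 (-1) (by decide +kernel)

theorem n84 : Nd 4 0 (0, 0, 17) (0, 0, 4) 5 [(0, 0, 4), (0, 0, 4), (0, 0, 6), (0, 0, 8), (0, 0, 12)] 0x130010002002241556422a043108cc6422844b54040441655088002704080101214428 :=
  n18.join n81 [(3, 1), (2, 2)] [(0, 1), (1, 2)] [(0, 0), (3, 3), (4, 4)] 1 1 (by decide +kernel)

theorem n85 : Nd 4 0 (0, 0, 17) (0, 0, 4) 5 [(0, 0, 4), (0, 0, 4), (0, 0, 5), (0, 0, 9), (0, 0, 12)] 0x292de630847000cfe17898c3c1ff87ff83f76921b92fc36dde5fdda486e4bb8f7a7e1febc :=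
  n12.join n73 [(2, 0), (0, 1)] [(1, 1), (3, 2)] [(2, 4), (3, 3), (4, 0)] 1 (-1) (by decide +kernel)

theorem n86 : Nd 4 0 (0, 0, 17) (0, 0, 4) 5 [(0, 0, 4), (0, 0, 4), (0, 0, 8), (0, 0, 8), (0, 0, 10)] 0x3344034001fffd501801815c11006000780003080071ff1101f8623ff801c07e0071e81d3 :=
  n82.join n12 [(0, 1), (1, 3)] [(2, 4), (3, 2), (4, 3)] [(0, 0), (2, 1)] (-1) 1 (by decide +kernel)

theorem n87 : Nd 4 0 (0, 0, 17) (0, 0, 4) 5 [(0, 0, 4), (0, 0, 6), (0, 0, 7), (0, 0, 8), (0, 0, 9)] 0x15170134097897241ad70be9c09014cc3a1324eb3f04001165388819271c08008164e46f :=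
  n84.join n11 [(1, 0), (4, 3)] [(0, 0), (2, 1), (3, 3)] [(1, 4), (2, 2)] 1 (-1) (by decide +kernel)

theorem n88 : Nd 4 0 (0, 0, 17) (0, 0, 4) 5 [(0, 0, 4), (0, 0, 4), (0, 0, 5), (0, 0, 10), (0, 0, 11)] 0xcb0800d02ff57f00062815c13078bc007f88ffe007001280007800c2001c001f8709e1d3 :=
  n86.join n62 [(2, 2), (3, 1)] [(0, 0), (1, 1), (4, 3)] [(0, 2), (3, 4)] 1 1 (by decide +kernel)

theorem n89 : Nd 4 0 (0, 0, 17) (0, 0, 4) 5 [(0, 0, 4), (0, 0, 6), (0, 0, 7), (0, 0, 8), (0, 0, 9)] 0x408040000c0818102200141020410310200408081188018d12802311256244494d4a147 :=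
  n9.join n87 [(0, 0), (2, 4)] [(1, 4), (3, 0)] [(1, 1), (2, 2), (3, 3)] (-1) 1 (by decide +kernel)

end Pool.Agent.Lib.MP_239067_co.Pole.K4
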