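import Mathlib
import Pool.Agent.Lib.MP_239067_co.Pole.K4.D3

/-!
Multipoles of the level 4 certificate, part 4 (generated).
-/

set_option autoImplicit false
set_option linter.all false
set_option maxRecDepth 20000

namespace Pool.Agent.Lib.MP_239067_co.Pole.K4

theorem n90 : Nd 4 0 (0, 0, 17) (0, 0, 4) 5 [(0, 0, 4), (0, 0, 4), (0, 0, 5), (0, 0, 10), (0, 0, 11)] 0x4100060826104300151043108cc6400844295040441245002110a54184103314257 :=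
  n19.join n88 [(0, 1), (1, 2)] [(2, 2), (3, 1)] [(0, 0), (3, 3), (4, 4)] (-1) 1 (by decide +kernel)

theorem n91 : Nd 4 0 (0, 0, 17) (0, 0, 4) 5 [(0, 0, 4), (0, 0, 4), (0, 0, 7), (0, 0, 7), (0, 0, 12)] 0x2f2fff3c847000cfe1fc98c3c3ff87ff87fff921fb2fc3edfe7ffda487ecbf9ffb7e1febc :=
  n85.join n50 [(2, 0), (3, 1)] [(0, 0), (1, 1), (4, 4)] [(2, 2), (3, 3)] 1 (-1) (by decide +kernel)

theorem n92 : Nd 4 0 (0, 0, 17) (0, 0, 4) 5 [(0, 0, 4), (0, 0, 4), (0, 0, 7), (0, 0, 9), (0, 0, 10)] 0x3344034001fffd501801815c11006000780003080071ff1101f8623ff801c07e0071e81d3 :=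
  n79.join n57 [(0, 0), (4, 3)] [(1, 0), (2, 1), (3, 4)] [(1, 3), (2, 2)] 1 (-1) (by decide +kernel)

theorem n93 : Nd 4 0 (0, 0, 17) (0, 0, 4) 5 [(0, 0, 4), (0, 0, 4), (0, 0, 7), (0, 0, 7), (0, 0, 12)] 0x3ffc0003c000ffc00061f8001800003f001987e00060000618001e63c :=
  n8.join n91 [(2, 0), (3, 1)] [(0, 0), (1, 1)] [(2, 2), (3, 3), (4, 4)] 1 1 (by decide +kernel)

theorem n94 : Nd 4 0 (0, 0, 17) (0, 0, 4) 5 [(0, 0, 4), (0, 0, 4), (0, 0, 7), (0, 0, 9), (0, 0, 10)] 0x410002000a0811040820240828411250a10609025148010a10908210406a5449594b163 :=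
  n9.join n92 [(0, 1), (2, 3)] [(1, 3), (3, 1)] [(0, 0), (2, 2), (4, 4)] (-1) 1 (by decide +kernel)

theorem n95 : Nd 4 0 (0, 0, 17) (0, 0, 4) 5 [(0, 0, 4), (0, 0, 4), (0, 0, 5), (0, 0, 10), (0, 0, 11)] 0x8b02020a24815f10218520c0834abc30861058e101c13288c8f84142449f2237aecbf1eb :=
  n94.join n13 [(2, 2), (3, 1)] [(0, 0), (1, 1), (4, 3)] [(0, 2), (3, 4)] 1 1 (by decide +kernel)

theorem n96 : Nd 4 0 (0, 0, 17) (0, 0, 4) 5 [(0, 0, 4), (0, 0, 5), (0, 0, 6), (0, 0, 8), (0, 0, 11)] 0x3ffc0003c000ffc00061f8001800003f000187e0006000001801fe63c :=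
  n90.join n51 [(0, 0), (3, 2)] [(1, 0), (2, 1), (4, 4)] [(1, 3), (3, 2)] 1 (-1) (by decide +kernel)

theorem n97 : Nd 4 0 (0, 0, 17) (0, 0, 4) 5 [(0, 0, 4), (0, 0, 5), (0, 0, 6), (0, 0, 8), (0, 0, 11)] 0x340c34001ff015e002001510038011fd1b840006871c001ff52802381a1ffd4687e4abd5 :=
  n95.join n51 [(0, 0), (3, 2)] [(1, 0), (2, 1), (4, 4)] [(1, 3), (3, 2)] 1 (-1) (by decide +kernel)

theorem n98 : Nd 4 0 (0, 0, 17) (0, 0, 4) 5 [(0, 0, 4), (0, 0, 4), (0, 0, 4), (0, 0, 10), (0, 0, 12)] 0x31f017540000f611fdf0f3d40317c002e1f866bb800045061788a082f4c00018065e63d :=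
  n77.join n15 [(2, 1), (3, 2)] [(0, 0), (1, 1), (4, 3)] [(0, 2), (3, 4)] 1 1 (by decide +kernel)

theorem n99 : Nd 4 0 (0, 0, 17) (0, 0, 4) 5 [(0, 0, 4), (0, 0, 4), (0, 0, 4), (0, 0, 10), (0, 0, 12)] 0x2f22022424d2ff10418522c08265fc2106034be00192aff8d1f9053fc51f265ffcd7f1cb :=
  n98.join n29 [(1, 3), (4, 1)] [(0, 0), (2, 1), (3, 3)] [(0, 2), (2, 4)] 1 1 (by decide +kernel)

theorem n100 : Nd 4 0 (0, 0, 17) (0, 0, 4) 5 [(0, 0, 4), (0, 0, 5), (0, 0, 7), (0, 0, 7), (0, 0, 11)] 0x3ffc0003c000ffc00061f8001800003f000187e0006000001801fe63c :=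
  n96.join n26 [(2, 0), (3, 1)] [(0, 0), (1, 1), (4, 4)] [(2, 2), (3, 3)] 1 (-1) (by decide +kernel)

theorem n101 : Nd 4 0 (0, 0, 17) (0, 0, 4) 5 [(0, 0, 4), (0, 0, 5), (0, 0, 7), (0, 0, 7), (0, 0, 11)] 0x340c34001ff015e002001510038011fd1b840006871c001ff52802381a1ffd4687e4abd5 :=
  n97.join n26 [(2, 0), (3, 1)] [(0, 0), (1, 1), (4, 4)] [(2, 2), (3, 3)] 1 (-1) (by decide +kernel)

theorem n102 : Nd 4 0 (0, 0, 17) (0, 0, 4) 5 [(0, 0, 4), (0, 0, 6), (0, 0, 6), (0, 0, 8), (0, 0, 10)] 0x2708009164d2bf81062811c102657c310600cbe081188c58d1780239125e2455d4d5e147 :=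
  n89.join n26 [(2, 2), (4, 1)] [(0, 0), (1, 1), (3, 3)] [(0, 2), (3, 4)] 1 1 (by decide +kernel)

theorem n103 : Nd 4 0 (0, 0, 17) (0, 0, 4) 5 [(0, 0, 5), (0, 0, 6), (0, 0, 6), (0, 0, 8), (0, 0, 9)] 0x2708249164d2bf81062811c10a657c310600cbe081188c58d1780239125e2455d4d5e147 :=
  n102.join n33 [(0, 0), (4, 2)] [(1, 1), (2, 2), (3, 3)] [(1, 4), (3, 0)] 1 (-1) (by decide +kernel)

theorem n104 : Nd 4 0 (0, 0, 17) (0, 0, 4) 5 [(0, 0, 4), (0, 0, 4), (0, 0, 8), (0, 0, 8), (0, 0, 10)] 0x388b24c080a7fe24bf0670bebc421809fc4220649c74fc0655fc04e9fadfc1060027e446f :=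
  n15.join n99 [(0, 2), (3, 4)] [(1, 2), (2, 3)] [(0, 0), (1, 1), (3, 4)] (-1) 1 (by decide +kernel)

theorem n105 : Nd 4 0 (0, 0, 17) (0, 0, 4) 5 [(0, 0, 4), (0, 0, 4), (0, 0, 7), (0, 0, 7), (0, 0, 12)] 0x3f000003fe28ff8ff3f3078bc007fffff5f80001280007e51807e03fabf8709fffe :=
  n13.join n80 [(1, 3), (3, 4)] [(0, 4), (2, 3)] [(0, 0), (1, 1), (2, 2)] (-1) 1 (by decide +kernel)

theorem n106 : Nd 4 0 (0, 0, 17) (0, 0, 4) 5 [(0, 0, 4), (0, 0, 6), (0, 0, 6), (0, 0, 8), (0, 0, 10)] 0x41000608261043001510421009d4400844295088004510002110a54184103550257 :=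
  n16.join n104 [(0, 0), (1, 3)] [(2, 1), (3, 2)] [(1, 0), (2, 3), (4, 4)] (-1) 1 (by decide +kernel)

theorem n107 : Nd 4 0 (0, 0, 17) (0, 0, 4) 4 [(0, 0, 4), (0, 0, 9), (0, 0, 10), (0, 0, 11)] 0x42aaeafa :=
  n63.join n103 [(1, 0), (2, 2), (3, 4)] [(0, 0), (4, 2)] [(1, 3), (3, 1)] 1 (-1) (by decide +kernel)

theorem n108 : Nd 4 0 (0, 0, 17) (0, 0, 4) 4 [(0, 0, 5), (0, 0, 9), (0, 0, 10), (0, 0, 10)] 0x60f0faf2 :=
  n27.join n105 [(0, 0), (1, 1), (4, 4)] [(2, 0), (3, 1)] [(2, 2), (3, 3)] 1 (-1) (by decide +kernel)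

theorem n109 : Nd 4 0 (0, 0, 17) (0, 0, 4) 4 [(0, 0, 5), (0, 0, 9), (0, 0, 10), (0, 0, 10)] 0x60fafaf0 :=
  n49.join n93 [(0, 0), (1, 1), (4, 4)] [(2, 0), (3, 1)] [(2, 2), (3, 3)] 1 (-1) (by decide +kernel)

theorem n110 : Nd 4 0 (0, 0, 17) (0, 0, 4) 4 [(0, 0, 4), (0, 0, 10), (0, 0, 10), (0, 0, 10)] 0x62da5a7a :=
  n45.join n106 [(0, 2), (1, 1), (4, 3)] [(2, 1), (3, 2)] [(0, 0), (4, 3)] (-1) 1 (by decide +kernel)

theorem n111 : Nd 4 0 (0, 0, 17) (0, 0, 4) 4 [(0, 0, 7), (0, 0, 7), (0, 0, 10), (0, 0, 10)] 0x7e0f0f0f3 :=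
  n100.join n101 [(0, 0), (1, 1), (4, 4)] [(2, 0), (3, 1)] [(2, 2), (3, 3)] 1 (-1) (by decide +kernel)

theorem n112 : Nd 4 0 (0, 0, 17) (0, 0, 4) 5 [(0, 0, 5), (0, 0, 5), (0, 0, 5), (0, 0, 9), (0, 0, 10)] 0x100020022004100151001008482400844295040441655002110a54184103754257 :=
  n108.join n3 [(2, 2)] [(0, 0), (1, 3), (3, 4)] [(0, 1), (1, 2)] 1 1 (by decide +kernel)

theorem n113 : Nd 4 0 (0, 0, 17) (0, 0, 4) 4 [(0, 0, 5), (0, 0, 9), (0, 0, 10), (0, 0, 10)] 0x7e0f0f0f0 :=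
  n109.join n111 [(2, 0), (3, 1)] [(0, 0), (1, 1)] [(2, 2), (3, 3)] 1 1 (by decide +kernel)

theorem n114 : Nd 4 0 (0, 0, 17) (0, 0, 4) 5 [(0, 0, 4), (0, 0, 4), (0, 0, 5), (0, 0, 10), (0, 0, 11)] 0x100020022004100151001008482400844295040441655002110a54184103754257 :=
  n107.join n1 [(1, 2)] [(0, 0), (2, 3), (3, 4)] [(0, 1), (1, 2)] 1 1 (by decide +kernel)

theorem n115 : Nd 4 0 (0, 0, 17) (0, 0, 4) 5 [(0, 0, 5), (0, 0, 5), (0, 0, 7), (0, 0, 7), (0, 0, 10)] 0xec07ec0f81303b3c0dc03b2c00f02c4876fb801df0fc03e320507df86400c81907e1d438 :=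
  n68.join n113 [(2, 0), (3, 1)] [(0, 0), (1, 1), (4, 4)] [(2, 2), (3, 3)] 1 (-1) (by decide +kernel)

theorem n116 : Nd 4 0 (0, 0, 17) (0, 0, 4) 5 [(0, 0, 4), (0, 0, 5), (0, 0, 5), (0, 0, 10), (0, 0, 10)] 0x1929a15c59a4160c9e263a515a5638592c9458652b249510c59a633909a7532628e4a8a54 :=
  n115.join n110 [(2, 2), (3, 1)] [(0, 1), (1, 2), (4, 3)] [(0, 0), (3, 4)] 1 1 (by decide +kernel)

theorem n117 : Nd 4 0 (0, 0, 17) (0, 0, 4) 4 [(0, 0, 4), (0, 0, 6), (0, 0, 11), (0, 0, 13)] 0x1bef777777 :=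
  n114.join n83 [(0, 1), (2, 2), (3, 3)] [(1, 3), (4, 1)] [(0, 0), (4, 2)] (-1) 1 (by decide +kernel)

theorem n118 : Nd 4 0 (0, 0, 17) (0, 0, 4) 4 [(0, 0, 5), (0, 0, 7), (0, 0, 10), (0, 0, 12)] 0x1badff55ff :=
  n112.join n68 [(0, 2), (2, 1), (3, 3)] [(1, 0), (4, 2)] [(0, 3), (4, 1)] 1 (-1) (by decide +kernel)

theorem n119 : Nd 4 0 (0, 0, 17) (0, 0, 4) 5 [(0, 0, 4), (0, 0, 4), (0, 0, 4), (0, 0, 11), (0, 0, 11)] 0x302000000003f00018500c080717c007e030fe0071c845df5798819641ffd5f87f5f5eb :=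
  n24.join n117 [(1, 0), (3, 2)] [(0, 0), (2, 1), (4, 3)] [(1, 4), (3, 2)] 1 (-1) (by decide +kernel)

end Pool.Agent.Lib.MP_239067_co.Pole.K4
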