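import Mathlib
import Pool.Agent.Lib.MP_239067_co.Pole.K4.D4

/-!
Multipoles of the level 4 certificate, part 5 (generated).
-/

set_option autoImplicit false
set_option linter.all false
set_option maxRecDepth 20000

namespace Pool.Agent.Lib.MP_239067_co.Pole.K4

theorem n120 : Nd 4 0 (0, 0, 17) (0, 0, 4) 5 [(0, 0, 4), (0, 0, 5), (0, 0, 5), (0, 0, 10), (0, 0, 10)] 0x302000000003f00018500c080717c007e030fe0071c845df5798819641ffd5f87f5f5eb :=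
  n71.join n118 [(2, 3), (4, 1)] [(0, 0), (1, 1), (3, 3)] [(0, 2), (2, 4)] 1 1 (by decide +kernel)

theorem n121 : Nd 4 0 (0, 0, 17) (0, 0, 4) 5 [(0, 0, 4), (0, 0, 4), (0, 0, 4), (0, 0, 11), (0, 0, 11)] 0xd00001000a0c3200410015102dffc48240cede295b7fff1e5d833b78a56af7fffffeb57 :=
  n20.join n119 [(0, 0), (2, 4)] [(1, 4), (3, 2)] [(1, 0), (2, 1), (3, 3)] (-1) 1 (by decide +kernel)

theorem n122 : Nd 4 0 (0, 0, 17) (0, 0, 4) 5 [(0, 0, 4), (0, 0, 4), (0, 0, 4), (0, 0, 11), (0, 0, 11)] 0x208000000003c0006280081038ffc007e1ff1e07fe3d28d1be67ec23efbffffffffffff :=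
  n121.join n117 [(0, 0), (3, 2)] [(1, 0), (2, 1), (4, 3)] [(1, 4), (3, 2)] 1 (-1) (by decide +kernel)

theorem n123 : Nd 4 0 (0, 0, 17) (0, 0, 4) 5 [(0, 0, 4), (0, 0, 4), (0, 0, 4), (0, 0, 11), (0, 0, 11)] 0x1200000000000411040004843108cc6422844ad50c844555408a112f5418410375467f :=
  n8.join n122 [(1, 0), (0, 2)] [(2, 1), (3, 2)] [(1, 0), (3, 3), (4, 4)] (-1) 1 (by decide +kernel)

theorem n124 : Nd 4 0 (0, 0, 17) (0, 0, 4) 5 [(0, 0, 4), (0, 0, 4), (0, 0, 6), (0, 0, 9), (0, 0, 11)] 0x10c000c000000c30000000300000ffc01861f81e18103c3f001807e0786040061801fe67f :=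
  n123.join n16 [(0, 0), (4, 2)] [(1, 0), (2, 1), (3, 4)] [(1, 3), (3, 2)] 1 (-1) (by decide +kernel)

theorem n125 : Nd 4 0 (0, 0, 17) (0, 0, 4) 5 [(0, 0, 4), (0, 0, 4), (0, 0, 6), (0, 0, 10), (0, 0, 10)] 0x10d000c300000c30000000300000ffc01861f81e18103c3f001987e0786040061801fe67f :=
  n124.join n26 [(3, 1), (4, 0)] [(0, 0), (1, 1), (2, 2)] [(2, 3), (3, 4)] 1 1 (by decide +kernel)

theorem n126 : Nd 4 0 (0, 0, 17) (0, 0, 4) 5 [(0, 0, 4), (0, 0, 5), (0, 0, 7), (0, 0, 7), (0, 0, 11)] 0xd000c300000c303ffc0433fc00ffc01861f81e1810000000198000006040061801fe67f :=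
  n125.join n12 [(0, 0), (1, 1)] [(2, 4), (3, 2), (4, 3)] [(2, 0), (3, 1)] (-1) 1 (by decide +kernel)

theorem n127 : Nd 4 0 (0, 0, 17) (0, 0, 4) 5 [(0, 0, 4), (0, 0, 4), (0, 0, 5), (0, 0, 10), (0, 0, 11)] 0x4c08200060416eaab6436fd18210da9a94208bad0000006088000006041820836aa67f :=
  n126.join n61 [(2, 1), (3, 3)] [(0, 0), (1, 2), (4, 4)] [(0, 1), (2, 3)] 1 1 (by decide +kernel)

theorem n128 : Nd 4 0 (0, 0, 17) (0, 0, 4) 4 [(0, 0, 4), (0, 0, 7), (0, 0, 10), (0, 0, 13)] 0x134aaa2222 :=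
  n120.join n116 [(1, 1), (2, 2), (3, 3)] [(0, 3), (4, 1)] [(0, 0), (4, 2)] (-1) 1 (by decide +kernel)

theorem n129 : Nd 4 0 (0, 0, 17) (0, 0, 4) 4 [(0, 0, 4), (0, 0, 10), (0, 0, 10), (0, 0, 10)] 0x1488125a5a :=
  n120.join n115 [(1, 0), (2, 1), (3, 4)] [(0, 0), (4, 3)] [(2, 1), (3, 2)] 1 (-1) (by decide +kernel)

theorem n130 : Nd 4 0 (0, 0, 17) (0, 0, 4) 4 [(0, 0, 4), (0, 0, 10), (0, 0, 10), (0, 0, 10)] 0x3febffff33 :=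
  n28.join n127 [(0, 0), (1, 2), (4, 4)] [(2, 2), (3, 3)] [(1, 0), (3, 1)] (-1) 1 (by decide +kernel)

theorem n131 : Nd 4 0 (0, 0, 17) (0, 0, 4) 4 [(0, 0, 4), (0, 0, 10), (0, 0, 10), (0, 0, 10)] 0x63135f5f :=
  n5.join n129 [(1, 2), (3, 0)] [(0, 0), (2, 1)] [(1, 2), (3, 3)] 1 1 (by decide +kernel)

theorem n132 : Nd 4 0 (0, 0, 17) (0, 0, 4) 4 [(0, 0, 4), (0, 0, 10), (0, 0, 10), (0, 0, 10)] 0x7e0f000f0 :=
  n128.join n130 [(1, 2), (3, 0)] [(0, 0), (2, 1)] [(1, 2), (3, 3)] 1 1 (by decide +kernel)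

theorem n133 : Nd 4 0 (0, 0, 17) (0, 0, 4) 4 [(0, 0, 7), (0, 0, 7), (0, 0, 10), (0, 0, 10)] 0x7e0c000f0 :=
  n132.join n132 [(0, 0), (1, 1)] [(2, 2), (3, 3)] [(2, 0), (3, 1)] 1 (-1) (by decide +kernel)

theorem n134 : Nd 4 0 (0, 0, 17) (0, 0, 4) 4 [(0, 0, 4), (0, 0, 10), (0, 0, 10), (0, 0, 10)] 0x1488124812 :=
  n133.join n132 [(0, 3), (1, 2)] [(2, 1), (3, 2)] [(0, 0), (1, 3)] 1 1 (by decide +kernel)

theorem n135 : Nd 4 0 (0, 0, 17) (0, 0, 4) 4 [(0, 0, 7), (0, 0, 7), (0, 0, 10), (0, 0, 10)] 0x60000030 :=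
  n134.join n131 [(0, 0), (3, 2)] [(1, 2), (2, 3)] [(1, 0), (3, 1)] 1 (-1) (by decide +kernel)

theorem n136 : Nd 4 0 (0, 0, 17) (0, 0, 4) 4 [(0, 0, 7), (0, 0, 7), (0, 0, 10), (0, 0, 10)] 0x4c4c13 :=
  n135.join n47 [(0, 3), (3, 1)] [(1, 0), (2, 2)] [(0, 1), (2, 3)] 1 1 (by decide +kernel)

theorem n137 : Nd 4 0 (0, 0, 17) (0, 0, 4) 4 [(0, 0, 7), (0, 0, 7), (0, 0, 10), (0, 0, 10)] 0x32 :=
  n135.join n136 [(1, 1), (2, 2)] [(0, 0), (3, 2)] [(0, 3), (3, 1)] 1 (-1) (by decide +kernel)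

theorem n138 : Nd 4 0 (0, 0, 17) (0, 0, 4) 4 [(0, 0, 5), (0, 0, 7), (0, 0, 10), (0, 0, 12)] 0x32 :=
  n137.join n55 [(3, 1), (0, 2)] [(1, 1), (2, 2)] [(0, 0), (3, 3)] 1 1 (by decide +kernel)

theorem n139 : Nd 4 0 (0, 0, 17) (0, 0, 4) 4 [(0, 0, 5), (0, 0, 7), (0, 0, 10), (0, 0, 12)] 0x30 :=
  n138.join n7 [(0, 0), (1, 1)] [(2, 2), (3, 3)] [(2, 1), (3, 0)] 1 (-1) (by decide +kernel)

theorem n140 : Nd 4 0 (0, 0, 17) (0, 0, 4) 3 [(0, 0, 5), (0, 0, 5), (0, 0, 7)] 0x2 :=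
  n139.join n3 [(0, 0), (1, 2)] [(2, 2), (3, 0)] [(1, 1)] (-1) 1 (by decide +kernel)

theorem n141 : Nd 4 0 (0, 0, 17) (0, 0, 4) 3 [(0, 0, 5), (0, 0, 5), (0, 0, 7)] 0x0 :=
  n139.join n140 [(0, 1), (1, 2)] [(2, 2), (3, 0)] [(0, 1)] (-1) 1 (by decide +kernel)

theorem n142 : Nd 4 0 (0, 0, 17) (0, 0, 4) 0 [] 0x0 :=
  n141.join n3 [(0, 0), (1, 1), (2, 2)] [] [] (-1) 1 (by decide +kernel)

end Pool.Agent.Lib.MP_239067_co.Pole.K4
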